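import Pool.Agent.Helper34.FG.WeakFinal

/-!
A copy of the free group on two generators in the full group of a measure preserving
transformation, with phases in the unitary group of a finite dimensional C*-algebra, is discrete
in the uniform topology if and only if it acts discretely on the measure algebra of the base.

`T` is an invertible measure preserving transformation of a probability space `(X, μ)`.  The
generator `i` of the free group acts on `X × unitary B` by
`(x, z) ↦ (T ^ c i x • x, θ i x * z)`: on the base it is an element of the full group of `T`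
with displacement `c i`, and `θ i` is an arbitrary function with values in the unitary group of
`B` (the phase).
-/

namespace Pool.Agent.Helper34.Old.WeakDiscreteness

open MeasureTheory

theorem result {X B : Type*} [MeasurableSpace X]
    [NormedRing B] [StarRing B] [CStarRing B] [NormedAlgebra ℂ B] [FiniteDimensional ℂ B]
    (μ : Measure X) [IsProbabilityMeasure μ]
    (T : Equiv.Perm X) (hT : MeasurePreserving T μ μ) (hT' : Measurable T.symm)
    (c : Fin 2 → X → ℤ) (hc : ∀ i, Measurable (c i))
    (θ : Fin 2 → X → unitary B) (ρ : FreeGroup (Fin 2) →* Equiv.Perm (X × unitary B))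
    (hρ : ∀ i x z, ρ (FreeGroup.of i) (x, z) = ((T ^ (c i x)) x, θ i x * z)) :
    (∀ ε : ℝ, 0 < ε → ∃ w : FreeGroup (Fin 2), w ≠ 1 ∧
      μ {x | ¬ ∃ a : unitary B, ‖(a : B) - 1‖ < ε ∧ ∀ z, ρ w (x, z) = (x, a * z)}
        < ENNReal.ofReal ε) ↔
    (∀ s : Finset (Set X), (∀ D ∈ s, MeasurableSet D) → ∀ δ : ℝ, 0 < δ →
      ∃ w : FreeGroup (Fin 2), w ≠ 1 ∧
        ∀ D ∈ s, μ (symmDiff {x | (ρ w (x, 1)).1 ∈ D} D) < ENNReal.ofReal δ) :=
  Helper34.FG.mainW μ T hT hT' c hc θ ρ hρ

end Pool.Agent.Helper34.Old.WeakDiscreteness
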